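import Pool.Agent.Lib.MP_688fd0_co.SQ5.NA.Iface
import Pool.Agent.Lib.MP_688fd0_co.SQ2.H80.Kap

/-!
NEAR-ALL, row KAPA: the conditions on the voltages at the primes of `C`.
-/

set_option autoImplicit false

namespace Pool.Agent.Lib.MP_688fd0_co.SQ5.NA

open Pool.Agent.Lib.MP_688fd0_co.OSF Pool.Agent.Lib.MP_688fd0_co.SQ2 Pool.Agent.Lib.MP_688fd0_co.SQ3
open Pool.Agent.Lib.MP_688fd0_co.SQ4 Pool.Agent.Lib.MP_688fd0_co.SQ5.N
open Pool.Agent.Lib.MP_688fd0_co.SQ2.KapP (crossed red_eq')

/-- KAPA. -/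
theorem kapA : KapAS := by
  intro G _ _ N C eps k P A a b τ num den h _ h1 a' b' ha' hb' s z chi ν hs hz ho hconj hν V hV hVn p hp
  have : NeZero (Nat.card C) := ⟨Nat.card_pos.ne'⟩
  have hpp : p.Prime := Nat.prime_of_mem_primeFactors hp
  have hpd : p ∣ Nat.card C := Nat.dvd_of_mem_primeFactors hp
  have : Fact p.Prime := ⟨hpp⟩
  set f : ZMod (Nat.card C) →+* ZMod p := red (Nat.dvd_of_mem_primeFactors hp) with hf
  have hcr := crossed C s z chi ν ho hconj hν
  -- reduction modulo `p`
  let c : G → ZMod p := fun g => f (ν g)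
  let χ : G → ZMod p := fun g => f (chi (QuotientGroup.mk' C g))
  let e : G → ZMod p := fun g => (((eps g : ℤˣ) : ℤ) : ZMod p)
  have cmul : ∀ g h, c (g * h) = c g + χ g * c h := fun g h => by
    show f _ = _
    rw [hcr, map_add, map_mul]
  have χmul : ∀ g h, χ (g * h) = χ g * χ h := fun g h => by
    show f _ = _
    rw [map_mul, map_mul, map_mul]
  have emul : ∀ g h, e (g * h) = e g * e h := fun g h => by
    show (((eps (g * h) : ℤˣ) : ℤ) : ZMod p) = _
    rw [map_mul, Units.val_mul, Int.cast_mul]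
  have χ1 : χ 1 = 1 := by
    show f _ = _
    rw [map_one, map_one, map_one]
  have e1 : e 1 = 1 := by
    show (((eps 1 : ℤˣ) : ℤ) : ZMod p) = _
    rw [map_one, Units.val_one, Int.cast_one]
  have c1 : c 1 = 0 := by
    have := cmul 1 1
    rw [mul_one, χ1, one_mul] at this
    exact left_eq_add.1 this
  have χinv : ∀ g, χ g * χ g⁻¹ = 1 := fun g => by rw [← χmul, mul_inv_cancel, χ1]
  have einv : ∀ g, e g * e g⁻¹ = 1 := fun g => by rw [← emul, mul_inv_cancel, e1]
  have cinv : ∀ g, c g + χ g * c g⁻¹ = 0 := fun g => by rw [← cmul, mul_inv_cancel, c1]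
  have hzC : z ∈ C := by rw [← hz]; exact Subgroup.mem_zpowers z
  have hmz : ∀ g ∈ C, QuotientGroup.mk' C g = 1 := fun g hg => by
    rw [QuotientGroup.mk'_apply, QuotientGroup.eq_one_iff]; exact hg
  -- `c z = 1`, `χ z = 1`
  have χz : χ z = 1 := by
    show f (chi (QuotientGroup.mk' C z)) = 1
    rw [hmz z hzC, map_one, map_one]
  have cz : c z = 1 := by
    have e := hν z
    rw [hmz z hzC, map_one, mul_one] at e
    have e1 : z ^ 1 = z ^ (ν z).val := by rw [pow_one]; exact e
    rw [pow_inj_mod, ho] at e1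
    have e2 : ((1 : ℕ) : ZMod (Nat.card C)) = (((ν z).val : ℕ) : ZMod (Nat.card C)) :=
      (ZMod.natCast_eq_natCast_iff' _ _ _).2 e1
    rw [ZMod.natCast_zmod_val, Nat.cast_one] at e2
    show f (ν z) = 1
    rw [← e2, map_one]
  -- the prime is odd
  have hcardN : Nat.card C ∣ Nat.card N := Subgroup.card_dvd_of_le h.gn.CN
  have hpN : p ∈ (Nat.card N).primeFactors :=
    Nat.mem_primeFactors.2 ⟨hpp, hpd.trans hcardN, Nat.card_pos.ne'⟩
  have hp2 : 2 < p := by
    have h2 := h.bigN p hpN
    have hτ : 0 < τ ^ 9 := Nat.pow_pos h.τpos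
    have hk : 0 < k := by
      have h3 := h.gn.idx
      have h4 : N.index ≠ 0 := Subgroup.index_ne_zero_of_finite
      omega
    have h3 : 0 < τ ^ 9 * k := Nat.mul_pos hτ hk
    have h4 : 36 * τ ^ 9 * k = 36 * (τ ^ 9 * k) := Nat.mul_assoc _ _ _
    omega
  have h20 : (2 : ZMod p) ≠ 0 := by
    intro h2
    have h3 : ((2 : ℕ) : ZMod p) = 0 := by exact_mod_cast h2
    rw [ZMod.natCast_eq_zero_iff] at h3
    exact absurd (Nat.le_of_dvd (by norm_num) h3) (by omega)
  -- the letters
  have hA : ∀ x ∈ A, x * x = 1 := h.inv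
  have hAe : ∀ x ∈ A, e x = -1 := by
    intro x hx
    show (((eps _ : ℤˣ) : ℤ) : ZMod p) = _
    rw [h.neg x hx]; simp
  have hA1 : ∀ x ∈ A, x ≠ 1 := by
    rintro x hx rfl
    have h2 := h.neg 1 hx
    rw [map_one] at h2
    exact absurd h2 (by decide)
  have hAχ : ∀ x ∈ A, χ x = 1 ∨ χ x = -1 := by
    intro x hx
    have h2 : χ x * χ x = 1 := by rw [← χmul, hA x hx, χ1]
    exact mul_self_eq_one_iff.1 h2
  have hAc : ∀ x ∈ A, χ x = 1 → c x = 0 := by
    intro x hx hx1
    have h2 : c x + χ x * c x = 0 := by rw [← cmul, hA x hx, c1]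
    rw [hx1, one_mul, ← two_mul] at h2
    exact (mul_eq_zero.1 h2).resolve_left h20
  have ma : a ∈ A := h.aA
  have mb : b ∈ A := h.bA
  have hneg : (1 : ZMod p) ≠ -1 := by
    intro h2
    apply h20
    have : (2 : ZMod p) = 1 + 1 := by norm_num
    rw [this]
    nth_rewrite 1 [h2]
    ring
  -- no common fixed point
  have hfix : ∀ y : ZMod p, ∃ x ∈ A, c x ≠ y - χ x * y := by
    intro y
    by_contra hy
    push Not at hy
    have h2 : ∀ g, c g = y - χ g * y := by
      intro g
      have hg : g ∈ Subgroup.closure A := by rw [h.gen]; trivial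
      refine Subgroup.closure_induction (p := fun g _ => c g = y - χ g * y) ?_ ?_ ?_ ?_ hg
      · intro x hx
        exact hy x hx
      · rw [c1, χ1]; ring
      · intro x x' _ _ hx hx'
        rw [cmul, χmul, hx, hx']; ring
      · intro x _ hx
        have h3 := cinv x
        have h4 := χinv x
        have h5 : χ x * (c x⁻¹ - (y - χ x⁻¹ * y)) = 0 := by
          have : χ x * (c x⁻¹ - (y - χ x⁻¹ * y)) = (χ x * c x⁻¹) - χ x * y + (χ x * χ x⁻¹) * y := by ring
          rw [this, h4, eq_neg_of_add_eq_zero_right h3, hx]; ring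
        have h0 : χ x ≠ 0 := fun h => by rw [h, zero_mul] at h4; exact zero_ne_one h4
        exact sub_eq_zero.1 ((mul_eq_zero.1 h5).resolve_left h0)
    have h3 := h2 z
    rw [cz, χz, one_mul, sub_self] at h3
    exact one_ne_zero h3
  -- conjugation on elements of order `p`
  have hconj2 : ∀ x ∈ C, ∀ g : G, g * x * g⁻¹ = x ^ (chi (QuotientGroup.mk' C g)).val := by
    intro x hx g
    rw [← hz] at hx
    obtain ⟨r, rfl⟩ := Subgroup.mem_zpowers_iff.1 hx
    have h2 : g = z ^ (ν g).val * s (QuotientGroup.mk' C g) := hν g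
    obtain ⟨y, hy⟩ : ∃ y, y = s (QuotientGroup.mk' C g) := ⟨_, rfl⟩
    have h3 : y * z * y⁻¹ = z ^ (chi (QuotientGroup.mk' C g)).val := by rw [hy]; exact hconj _
    have h4 : y * z ^ r * y⁻¹ = (z ^ r) ^ (chi (QuotientGroup.mk' C g)).val := by
      rw [← conj_zpow, h3, ← zpow_natCast, ← zpow_natCast, ← zpow_mul, ← zpow_mul, mul_comm]
    have h5 : g * z ^ r * g⁻¹ = z ^ (ν g).val * (y * z ^ r * y⁻¹) * (z ^ (ν g).val)⁻¹ := by
      conv_lhs => rw [h2, ← hy]
      group
    rw [h5, h4]
    have h6 : Commute (z ^ (ν g).val) ((z ^ r) ^ (chi (QuotientGroup.mk' C g)).val) :=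
      (((Commute.refl z).pow_left _).zpow_right _).pow_right _
    rw [h6.eq, mul_inv_cancel_right]
  have hexp : ∀ x : G, x ^ p = 1 → ∀ g : G, χ g = e g →
      x ^ (chi (QuotientGroup.mk' C g)).val = x ^ ((eps g : ℤˣ) : ℤ) := by
    intro x hx g hg
    rw [← zpow_natCast, ← mul_inv_eq_one, ← zpow_sub]
    have h2 : (p : ℤ) ∣ (((chi (QuotientGroup.mk' C g)).val : ℕ) : ℤ) - ((eps g : ℤˣ) : ℤ) := by
      rw [← ZMod.intCast_zmod_eq_zero_iff_dvd, Int.cast_sub, Int.cast_natCast, sub_eq_zero]
      have h3 : f (chi (QuotientGroup.mk' C g)) = (((eps g : ℤˣ) : ℤ) : ZMod p) := hg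
      rw [← h3, hf, red_eq' (Nat.dvd_of_mem_primeFactors hp)]
    obtain ⟨r, hr⟩ := h2
    rw [hr, zpow_mul, zpow_natCast, hx, one_zpow]
  -- not all letters invert
  have hall : ∃ x ∈ A, χ x = 1 := by
    by_contra hno
    push Not at hno
    have hχe : ∀ g, χ g = e g := by
      intro g
      have hg : g ∈ Subgroup.closure A := by rw [h.gen]; trivial
      refine Subgroup.closure_induction (p := fun g _ => χ g = e g) ?_ ?_ ?_ ?_ hg
      · intro x hx
        rw [hAe x hx]
        exact (hAχ x hx).resolve_left (hno x hx)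
      · rw [χ1, e1]
      · intro x y _ _ hx hy
        rw [χmul, emul, hx, hy]
      · intro x _ hx
        have e1 := χinv x
        have e2 := einv x
        have h0 : χ x ≠ 0 := fun h => by rw [h, zero_mul] at e1; exact zero_ne_one e1
        rw [← hx] at e2
        exact mul_left_cancel₀ h0 (e1.trans e2.symm)
    obtain ⟨x, hx⟩ := exists_prime_orderOf_dvd_card' (G := C) p hpd
    have hxp : (x : G) ^ p = 1 := by
      have h2 := pow_orderOf_eq_one x
      rw [hx] at h2
      exact_mod_cast congrArg Subtype.val h2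
    have hx1 : (x : G) = 1 := by
      refine h.gn.nact x x.2 fun g => ?_
      rw [hconj2 x x.2 g, hexp x hxp g (hχe g)]
    have hx2 : x = 1 := Subtype.ext hx1
    rw [hx2, orderOf_one] at hx
    exact hpp.one_lt.ne hx
  -- the terms of the statement
  let lt : ∀ x ∈ A, (qLb C A h.sym h1).L := fun x hx => ⟨x, hx, hA1 x hx⟩
  have hla : ∀ x (hx : x ∈ A), x ≠ a → lt x hx ≠ a' := by
    intro x hx hxa h2
    apply hxa
    have h3 : (lt x hx).1 = a'.1 := by rw [h2]
    rw [ha'] at h3
    exact h3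
  have hlb : ∀ x (hx : x ∈ A), x ≠ b → lt x hx ≠ b' := by
    intro x hx hxa h2
    apply hxa
    have h3 : (lt x hx).1 = b'.1 := by rw [h2]
    rw [hb'] at h3
    exact h3
  have qa : (qLb C A h.sym h1).q a' = QuotientGroup.mk' C a := by
    show QuotientGroup.mk' C a'.1 = _
    rw [ha']
  have qb : (qLb C A h.sym h1).q b' = QuotientGroup.mk' C b := by
    show QuotientGroup.mk' C b'.1 = _
    rw [hb']
  have qx : ∀ x (hx : x ∈ A), (qLb C A h.sym h1).q (lt x hx) = QuotientGroup.mk' C x := fun _ _ => rfl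
  have Vχ : ∀ g : G, (V.map f).chi (QuotientGroup.mk' C g) = χ g := fun g => by
    show f (V.chi _) = f (chi _)
    rw [hV]
  have Vna : (V.map f).n a' = c a := by
    show f (V.n a') = f (ν a)
    rw [hVn, ha']
  have Vnb : (V.map f).n b' = c b := by
    show f (V.n b') = f (ν b)
    rw [hVn, hb']
  have Vnx : ∀ x (hx : x ∈ A), (V.map f).n (lt x hx) = c x := by
    intro x hx
    show f (V.n _) = f (ν x)
    rw [hVn]
  have ediv : ∀ x y : G, y ∈ A →
      (QuotientGroup.mk' C x) * (QuotientGroup.mk' C y)⁻¹ = QuotientGroup.mk' C (x * y) := by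
    intro x y hy
    rw [← map_inv, ← map_mul, inv_eq_of_mul_eq_one_right (hA y hy)]
  -- the reformulated condition
  have key : (∃ x x' : G, ∃ _ : x ∈ A, ∃ _ : x' ∈ A, x ≠ a ∧ x ≠ b ∧ x' ≠ a ∧ x' ≠ b ∧
      ((χ a * χ b = 1 ∧ c a - χ a * χ b * c b ≠ 0 ∧ χ a * χ x ≠ 1) ∨
        (∃ y y' : ZMod p, c a + χ a * y' = y ∧ c b + χ b * y' = y ∧
          (χ a * χ x = 1 ∨ χ x * χ b = 1) ∧ c x + χ x * y' ≠ y) ∨
        (∃ y y' : ZMod p, c a + χ a * y' = y ∧ c b + χ b * y' = y ∧
          χ a * χ b = 1 ∧ χ x = χ x' ∧ c x ≠ c x'))) →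
      ∃ s s' : (qLb C A h.sym h1).L, s ≠ a' ∧ s ≠ b' ∧ s' ≠ a' ∧ s' ≠ b' ∧
        KapA (V.map f) a' b' s s' := by
    rintro ⟨x, x', hx, hx', xa, xb, xa', xb', hK⟩
    refine ⟨lt x hx, lt x' hx', hla x hx xa, hlb x hx xb, hla x' hx' xa', hlb x' hx' xb', ?_⟩
    unfold KapA
    rw [nuW_eq, qa, qb, qx x hx, qx x' hx', ediv a b mb, ediv a x hx, ediv x b mb]
    simp only [Vχ, Vna, Vnb, Vnx, χmul]
    exact hK
  apply key
  rcases hAχ a ma with xa | xa
  · have ca := hAc a ma xa
    rcases hAχ b mb with xb | xb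
    · -- (E): two letters which invert, with different `c`
      have cb := hAc b mb xb
      have hex : ∃ x ∈ A, χ x = -1 := by
        obtain ⟨x, hx, hne⟩ := hfix 0
        rcases hAχ x hx with h2 | h2
        · exact absurd (by rw [hAc x hx h2]; ring) hne
        · exact ⟨x, hx, h2⟩
      obtain ⟨x, hx, hx1⟩ := hex
      obtain ⟨x', hx', hne⟩ := hfix (c x / 2)
      have hx1' : χ x' = -1 := by
        rcases hAχ x' hx' with h2 | h2
        · exact absurd (by rw [hAc x' hx' h2, h2]; ring) hne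
        · exact h2
      have hcc : c x ≠ c x' := by
        intro h2
        apply hne
        rw [hx1', ← h2]
        field_simp
        ring
      refine ⟨x, x', hx, hx', ?_, ?_, ?_, ?_, Or.inr (Or.inr ⟨0, 0, ?_, ?_, ?_, ?_, hcc⟩)⟩
      · rintro rfl; exact hneg (xa.symm.trans hx1)
      · rintro rfl; exact hneg (xb.symm.trans hx1)
      · rintro rfl; exact hneg (xa.symm.trans hx1')
      · rintro rfl; exact hneg (xb.symm.trans hx1')
      · rw [ca]; ring
      · rw [cb]; ring
      · rw [xa, xb, one_mul]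
      · rw [hx1, hx1']
    · -- (C)
      obtain ⟨x, hx, hne⟩ := hfix (c b / 2)
      have h2b : c b = c b / 2 - χ b * (c b / 2) := by rw [xb]; field_simp; ring
      have h2a : c a = c b / 2 - χ a * (c b / 2) := by rw [xa, ca]; ring
      refine ⟨x, x, hx, hx, ?_, ?_, ?_, ?_, Or.inr (Or.inl ⟨c b / 2, c b / 2, ?_, ?_, ?_, ?_⟩)⟩
      · rintro rfl; exact hne h2a
      · rintro rfl; exact hne h2b
      · rintro rfl; exact hne h2a
      · rintro rfl; exact hne h2b
      · linear_combination h2a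
      · linear_combination h2b
      · rcases hAχ x hx with h2 | h2
        · left; rw [xa, h2, one_mul]
        · right; rw [xb, h2]; ring
      · intro h2
        exact hne (by linear_combination h2)
  · rcases hAχ b mb with xb | xb
    · -- (D)
      have cb := hAc b mb xb
      obtain ⟨x, hx, hne⟩ := hfix (c a / 2)
      have h2a : c a = c a / 2 - χ a * (c a / 2) := by rw [xa]; field_simp; ring
      have h2b : c b = c a / 2 - χ b * (c a / 2) := by rw [xb, cb]; ring
      refine ⟨x, x, hx, hx, ?_, ?_, ?_, ?_, Or.inr (Or.inl ⟨c a / 2, c a / 2, ?_, ?_, ?_, ?_⟩)⟩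
      · rintro rfl; exact hne h2a
      · rintro rfl; exact hne h2b
      · rintro rfl; exact hne h2a
      · rintro rfl; exact hne h2b
      · linear_combination h2a
      · linear_combination h2b
      · rcases hAχ x hx with h2 | h2
        · right; rw [xb, h2, one_mul]
        · left; rw [xa, h2]; ring
      · intro h2
        exact hne (by linear_combination h2)
    · by_cases hcab : c a = c b
      · -- (B)
        obtain ⟨x, hx, hne⟩ := hfix (c a / 2)
        have hx1 : χ x = -1 := by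
          rcases hAχ x hx with h2 | h2
          · exact absurd (by rw [hAc x hx h2, h2]; ring) hne
          · exact h2
        have h2a : c a = c a / 2 - χ a * (c a / 2) := by rw [xa]; field_simp; ring
        have h2b : c b = c a / 2 - χ b * (c a / 2) := by rw [xb, ← hcab]; field_simp; ring
        refine ⟨x, x, hx, hx, ?_, ?_, ?_, ?_, Or.inr (Or.inl ⟨c a / 2, c a / 2, ?_, ?_, ?_, ?_⟩)⟩
        · rintro rfl; exact hne h2a
        · rintro rfl; exact hne h2b
        · rintro rfl; exact hne h2a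
        · rintro rfl; exact hne h2b
        · linear_combination h2a
        · linear_combination h2b
        · left; rw [xa, hx1]; ring
        · intro h2
          exact hne (by linear_combination h2)
      · -- (A)
        obtain ⟨x, hx, hx1⟩ := hall
        refine ⟨x, x, hx, hx, ?_, ?_, ?_, ?_, Or.inl ⟨?_, ?_, ?_⟩⟩
        · rintro rfl; exact hneg (hx1.symm.trans xa)
        · rintro rfl; exact hneg (hx1.symm.trans xb)
        · rintro rfl; exact hneg (hx1.symm.trans xa)
        · rintro rfl; exact hneg (hx1.symm.trans xb)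
        · rw [xa, xb]; ring
        · intro h2
          apply hcab
          rw [xa, xb] at h2
          linear_combination h2
        · rw [xa, hx1, mul_one]
          exact fun h2 => hneg h2.symm

end Pool.Agent.Lib.MP_688fd0_co.SQ5.NA
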