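import Pool.Agent.Lib.MP_688fd0_co.SQ5.N.Iface
import Pool.Agent.Lib.MP_688fd0_co.SQ2.H80.Kap

/-!
NEAR-3, row KAPN: the conditions on the voltages at the primes of `C₁`.
-/

set_option autoImplicit false

namespace Pool.Agent.Lib.MP_688fd0_co.SQ5.H70

open Pool.Agent.Lib.MP_688fd0_co.OSF Pool.Agent.Lib.MP_688fd0_co.SQ2 Pool.Agent.Lib.MP_688fd0_co.SQ3
open Pool.Agent.Lib.MP_688fd0_co.SQ4 Pool.Agent.Lib.MP_688fd0_co.SQ5.N
open Pool.Agent.Lib.MP_688fd0_co.SQ2.KapP (crossed red_eq')

/-- KAPN. -/
theorem kapN : KapNS := by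
  intro G _ _ N C C₁ eps k P a t b τ m n h i j hmn hij _ h1 a' t' b' ha' ht' hb' s z chi ν hs hz ho hconj hν
    V hV hVn p hp
  have : NeZero (Nat.card C₁) := ⟨Nat.card_pos.ne'⟩
  have hpp : p.Prime := Nat.prime_of_mem_primeFactors hp
  have hpd : p ∣ Nat.card C₁ := Nat.dvd_of_mem_primeFactors hp
  have : Fact p.Prime := ⟨hpp⟩
  set f : ZMod (Nat.card C₁) →+* ZMod p := red (Nat.dvd_of_mem_primeFactors hp) with hf
  have hcr := crossed C₁ s z chi ν ho hconj hν
  -- reduction modulo `p`
  let c : G → ZMod p := fun g => f (ν g)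
  let χ : G → ZMod p := fun g => f (chi (QuotientGroup.mk' C₁ g))
  let e : G → ZMod p := fun g => (((eps g : ℤˣ) : ℤ) : ZMod p)
  have cmul : ∀ g h, c (g * h) = c g + χ g * c h := fun g h => by
    show f _ = _
    rw [hcr, map_add, map_mul]
  have χmul : ∀ g h, χ (g * h) = χ g * χ h := fun g h => by
    show f _ = _
    rw [map_mul, map_mul, map_mul]
  have emul : ∀ g h, e (g * h) = e g * e h := fun g h => by
    show (((eps (g * h) : ℤˣ) : ℤ) : ZMod p) = _
    rw [map_mul, Units.val_mul, Int.cast_mul]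
  have χ1 : χ 1 = 1 := by
    show f _ = _
    rw [map_one, map_one, map_one]
  have e1 : e 1 = 1 := by
    show (((eps 1 : ℤˣ) : ℤ) : ZMod p) = _
    rw [map_one, Units.val_one, Int.cast_one]
  have c1 : c 1 = 0 := by
    have := cmul 1 1
    rw [mul_one, χ1, one_mul] at this
    exact left_eq_add.1 this
  have χinv : ∀ g, χ g * χ g⁻¹ = 1 := fun g => by rw [← χmul, mul_inv_cancel, χ1]
  have einv : ∀ g, e g * e g⁻¹ = 1 := fun g => by rw [← emul, mul_inv_cancel, e1]
  have cinv : ∀ g, c g + χ g * c g⁻¹ = 0 := fun g => by rw [← cmul, mul_inv_cancel, c1]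
  have hzC : z ∈ C₁ := by rw [← hz]; exact Subgroup.mem_zpowers z
  have hmz : ∀ g ∈ C₁, QuotientGroup.mk' C₁ g = 1 := fun g hg => by
    rw [QuotientGroup.mk'_apply, QuotientGroup.eq_one_iff]; exact hg
  -- `c z = 1`, `χ z = 1`
  have χz : χ z = 1 := by
    show f (chi (QuotientGroup.mk' C₁ z)) = 1
    rw [hmz z hzC, map_one, map_one]
  have cz : c z = 1 := by
    have e := hν z
    rw [hmz z hzC, map_one, mul_one] at e
    have e1 : z ^ 1 = z ^ (ν z).val := by rw [pow_one]; exact e
    rw [pow_inj_mod, ho] at e1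
    have e2 : ((1 : ℕ) : ZMod (Nat.card C₁)) = (((ν z).val : ℕ) : ZMod (Nat.card C₁)) :=
      (ZMod.natCast_eq_natCast_iff' _ _ _).2 e1
    rw [ZMod.natCast_zmod_val, Nat.cast_one] at e2
    show f (ν z) = 1
    rw [← e2, map_one]
  -- the prime is odd
  have hcardN : Nat.card C₁ ∣ Nat.card N := Subgroup.card_dvd_of_le h.leN
  have hpN : p ∈ (Nat.card N).primeFactors :=
    Nat.mem_primeFactors.2 ⟨hpp, hpd.trans hcardN, Nat.card_pos.ne'⟩
  have hp2 : 2 < p := by
    have h2 := h.bigN p hpN
    have hτ : 0 < τ := h.mpos.trans_le h.mle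
    have hk : 0 < k := by
      have h3 := h.gn.idx
      have h4 : N.index ≠ 0 := Subgroup.index_ne_zero_of_finite
      omega
    have h3 : 0 < τ * k := Nat.mul_pos hτ hk
    have h4 : 8 * τ * k = 8 * (τ * k) := Nat.mul_assoc _ _ _
    omega
  have h20 : (2 : ZMod p) ≠ 0 := by
    intro h2
    have h3 : ((2 : ℕ) : ZMod p) = 0 := by exact_mod_cast h2
    rw [ZMod.natCast_eq_zero_iff] at h3
    exact absurd (Nat.le_of_dvd (by norm_num) h3) (by omega)
  -- the letters
  have hA : ∀ x ∈ AN a t b, x * x = 1 := by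
    rintro x (rfl | rfl | rfl)
    · exact h.ia
    · exact h.it
    · exact h.ib
  have hAe : ∀ x ∈ AN a t b, e x = -1 := by
    rintro x (rfl | rfl | rfl)
    · show (((eps _ : ℤˣ) : ℤ) : ZMod p) = _
      rw [h.ea]; simp
    · show (((eps _ : ℤˣ) : ℤ) : ZMod p) = _
      rw [h.et]; simp
    · show (((eps _ : ℤˣ) : ℤ) : ZMod p) = _
      rw [h.eb]; simp
  have hAχ : ∀ x ∈ AN a t b, χ x = 1 ∨ χ x = -1 := by
    intro x hx
    have h2 : χ x * χ x = 1 := by rw [← χmul, hA x hx, χ1]
    exact mul_self_eq_one_iff.1 h2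
  have hAc : ∀ x ∈ AN a t b, χ x = 1 → c x = 0 := by
    intro x hx hx1
    have h2 : c x + χ x * c x = 0 := by rw [← cmul, hA x hx, c1]
    rw [hx1, one_mul, ← two_mul] at h2
    exact (mul_eq_zero.1 h2).resolve_left h20
  have ma : a ∈ AN a t b := Or.inl rfl
  have mt : t ∈ AN a t b := Or.inr (Or.inl rfl)
  have mb : b ∈ AN a t b := Or.inr (Or.inr rfl)
  -- no common fixed point
  have hfix : ∀ y : ZMod p, (∀ x ∈ AN a t b, c x = y - χ x * y) → False := by
    intro y hy
    have h2 : ∀ g, c g = y - χ g * y := by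
      intro g
      have hg : g ∈ Subgroup.closure ({a, t, b} : Set G) := by rw [h.gen]; trivial
      refine Subgroup.closure_induction (p := fun g _ => c g = y - χ g * y) ?_ ?_ ?_ ?_ hg
      · intro x hx
        exact hy x hx
      · rw [c1, χ1]; ring
      · intro x x' _ _ hx hx'
        rw [cmul, χmul, hx, hx']; ring
      · intro x _ hx
        have h3 := cinv x
        have h4 := χinv x
        have h5 : χ x * (c x⁻¹ - (y - χ x⁻¹ * y)) = 0 := by
          have : χ x * (c x⁻¹ - (y - χ x⁻¹ * y)) = (χ x * c x⁻¹) - χ x * y + (χ x * χ x⁻¹) * y := by ring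
          rw [this, h4, eq_neg_of_add_eq_zero_right h3, hx]; ring
        have h0 : χ x ≠ 0 := fun h => by rw [h, zero_mul] at h4; exact zero_ne_one h4
        exact sub_eq_zero.1 ((mul_eq_zero.1 h5).resolve_left h0)
    have h3 := h2 z
    rw [cz, χz, one_mul, sub_self] at h3
    exact one_ne_zero h3
  -- conjugation on elements of order `p`
  have hconj2 : ∀ x ∈ C₁, ∀ g : G, g * x * g⁻¹ = x ^ (chi (QuotientGroup.mk' C₁ g)).val := by
    intro x hx g
    rw [← hz] at hx
    obtain ⟨r, rfl⟩ := Subgroup.mem_zpowers_iff.1 hx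
    have h2 : g = z ^ (ν g).val * s (QuotientGroup.mk' C₁ g) := hν g
    obtain ⟨y, hy⟩ : ∃ y, y = s (QuotientGroup.mk' C₁ g) := ⟨_, rfl⟩
    have h3 : y * z * y⁻¹ = z ^ (chi (QuotientGroup.mk' C₁ g)).val := by rw [hy]; exact hconj _
    have h4 : y * z ^ r * y⁻¹ = (z ^ r) ^ (chi (QuotientGroup.mk' C₁ g)).val := by
      rw [← conj_zpow, h3, ← zpow_natCast, ← zpow_natCast, ← zpow_mul, ← zpow_mul, mul_comm]
    have h5 : g * z ^ r * g⁻¹ = z ^ (ν g).val * (y * z ^ r * y⁻¹) * (z ^ (ν g).val)⁻¹ := by
      conv_lhs => rw [h2, ← hy]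
      group
    rw [h5, h4]
    have h6 : Commute (z ^ (ν g).val) ((z ^ r) ^ (chi (QuotientGroup.mk' C₁ g)).val) :=
      (((Commute.refl z).pow_left _).zpow_right _).pow_right _
    rw [h6.eq, mul_inv_cancel_right]
  have hexp : ∀ x : G, x ^ p = 1 → ∀ g : G, χ g = e g →
      x ^ (chi (QuotientGroup.mk' C₁ g)).val = x ^ ((eps g : ℤˣ) : ℤ) := by
    intro x hx g hg
    rw [← zpow_natCast, ← mul_inv_eq_one, ← zpow_sub]
    have h2 : (p : ℤ) ∣ (((chi (QuotientGroup.mk' C₁ g)).val : ℕ) : ℤ) - ((eps g : ℤˣ) : ℤ) := by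
      rw [← ZMod.intCast_zmod_eq_zero_iff_dvd, Int.cast_sub, Int.cast_natCast, sub_eq_zero]
      have h3 : f (chi (QuotientGroup.mk' C₁ g)) = (((eps g : ℤˣ) : ℤ) : ZMod p) := hg
      rw [← h3, hf, red_eq' (Nat.dvd_of_mem_primeFactors hp)]
    obtain ⟨r, hr⟩ := h2
    rw [hr, zpow_mul, zpow_natCast, hx, one_zpow]
  -- the terms of the statement
  have qa : (qLb C₁ (AN a t b) h.sym h1).q a' = QuotientGroup.mk' C₁ a := by
    show QuotientGroup.mk' C₁ a'.1 = _
    rw [ha']
  have qt : (qLb C₁ (AN a t b) h.sym h1).q t' = QuotientGroup.mk' C₁ t := by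
    show QuotientGroup.mk' C₁ t'.1 = _
    rw [ht']
  have qb : (qLb C₁ (AN a t b) h.sym h1).q b' = QuotientGroup.mk' C₁ b := by
    show QuotientGroup.mk' C₁ b'.1 = _
    rw [hb']
  have Vχ : ∀ g : G, (V.map f).chi (QuotientGroup.mk' C₁ g) = χ g := fun g => by
    show f (V.chi _) = f (chi _)
    rw [hV]
  have Vna : (V.map f).n a' = c a := by
    show f (V.n a') = f (ν a)
    rw [hVn, ha']
  have Vnt : (V.map f).n t' = c t := by
    show f (V.n t') = f (ν t)
    rw [hVn, ht']
  have Vnb : (V.map f).n b' = c b := by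
    show f (V.n b') = f (ν b)
    rw [hVn, hb']
  have eab : (QuotientGroup.mk' C₁ a) * (QuotientGroup.mk' C₁ b)⁻¹ = QuotientGroup.mk' C₁ (a * b) := by
    rw [← map_inv, ← map_mul, inv_eq_of_mul_eq_one_right h.ib]
  have eat : (QuotientGroup.mk' C₁ a) * (QuotientGroup.mk' C₁ t)⁻¹ = QuotientGroup.mk' C₁ (a * t) := by
    rw [← map_inv, ← map_mul, inv_eq_of_mul_eq_one_right h.it]
  have etb : (QuotientGroup.mk' C₁ t) * (QuotientGroup.mk' C₁ b)⁻¹ = QuotientGroup.mk' C₁ (t * b) := by
    rw [← map_inv, ← map_mul, inv_eq_of_mul_eq_one_right h.ib]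
  unfold KapN
  rw [nuW_eq, qa, qt, qb, eab, eat, etb]
  simp only [Vχ, Vna, Vnt, Vnb, χmul]
  have hneg : ∀ x : ZMod p, x = 1 → x ≠ -1 := by
    rintro x rfl h2
    apply h20
    have : (2 : ZMod p) = 1 + 1 := by norm_num
    rw [this]
    nth_rewrite 1 [h2]
    ring
  by_cases hpC : p ∣ Nat.card C
  · -- not all letters invert
    have hall : ¬ (χ a = -1 ∧ χ t = -1 ∧ χ b = -1) := by
      rintro ⟨xa, xt, xb⟩
      have hχe : ∀ g, χ g = e g := by
        intro g
        have hg : g ∈ Subgroup.closure ({a, t, b} : Set G) := by rw [h.gen]; trivial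
        refine Subgroup.closure_induction (p := fun g _ => χ g = e g) ?_ ?_ ?_ ?_ hg
        · intro x hx
          rw [hAe x hx]
          rcases hx with rfl | rfl | rfl
          · exact xa
          · exact xt
          · exact xb
        · rw [χ1, e1]
        · intro x y _ _ hx hy
          rw [χmul, emul, hx, hy]
        · intro x _ hx
          have e1 := χinv x
          have e2 := einv x
          have h0 : χ x ≠ 0 := fun h => by rw [h, zero_mul] at e1; exact zero_ne_one e1
          rw [← hx] at e2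
          exact mul_left_cancel₀ h0 (e1.trans e2.symm)
      obtain ⟨x, hx⟩ := exists_prime_orderOf_dvd_card' (G := C) p hpC
      have hxp : (x : G) ^ p = 1 := by
        have h2 := pow_orderOf_eq_one x
        rw [hx] at h2
        exact_mod_cast congrArg Subtype.val h2
      have hx1 : (x : G) = 1 := by
        refine h.gn.nact x x.2 fun g => ?_
        rw [hconj2 x (h.le x.2) g, hexp x hxp g (hχe g)]
      have hx2 : x = 1 := Subtype.ext hx1
      rw [hx2, orderOf_one] at hx
      exact hpp.one_lt.ne hx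
    rcases hAχ a ma with xa | xa
    · rcases hAχ b mb with xb | xb
      · -- `a`, `b` act trivially
        exfalso
        have ca := hAc a ma xa
        have cb := hAc b mb xb
        apply hfix (c t / (1 - χ t))
        rcases hAχ t mt with xt | xt
        · have ct := hAc t mt xt
          rintro x (rfl | rfl | rfl)
          · rw [ca, xa]; ring
          · rw [ct, xt]; ring
          · rw [cb, xb]; ring
        · rw [xt]
          rintro x (rfl | rfl | rfl)
          · rw [ca, xa]; ring
          · rw [xt]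
            have : (1 - -1 : ZMod p) = 2 := by norm_num
            rw [this]
            field_simp
            ring
          · rw [cb, xb]; ring
      · -- second alternative
        right
        left
        refine ⟨?_, ?_, ?_⟩
        · rcases hAχ t mt with xt | xt
          · left; rw [xa, xt, one_mul]
          · right; rw [xb, xt]; ring
        · rw [xa, xb, one_mul]
          intro h2
          apply h20
          have : (2 : ZMod p) = -(-1 - 1) := by ring
          rw [this, h2, neg_zero]
        · rintro ⟨y, y', ha, ht, hb⟩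
          have ca := hAc a ma xa
          rw [ca, xa, zero_add, one_mul] at ha
          subst ha
          apply hfix y'
          rintro x (rfl | rfl | rfl)
          · exact eq_sub_of_add_eq (by rw [ca, xa]; ring)
          · exact eq_sub_of_add_eq ht
          · exact eq_sub_of_add_eq hb
    · rcases hAχ b mb with xb | xb
      · right
        left
        refine ⟨?_, ?_, ?_⟩
        · rcases hAχ t mt with xt | xt
          · right; rw [xb, xt, one_mul]
          · left; rw [xa, xt]; ring
        · rw [xa, xb, mul_one]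
          intro h2
          apply h20
          have : (2 : ZMod p) = -(-1 - 1) := by ring
          rw [this, h2, neg_zero]
        · rintro ⟨y, y', ha, ht, hb⟩
          have cb := hAc b mb xb
          rw [cb, xb, zero_add, one_mul] at hb
          subst hb
          apply hfix y'
          rintro x (rfl | rfl | rfl)
          · exact eq_sub_of_add_eq ha
          · exact eq_sub_of_add_eq ht
          · exact eq_sub_of_add_eq (by rw [cb, xb]; ring)
      · -- first alternative
        have xt : χ t = 1 := (hAχ t mt).resolve_right fun h2 => hall ⟨xa, h2, xb⟩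
        have ct := hAc t mt xt
        left
        refine ⟨by rw [xa, xb]; ring, ?_, ?_⟩
        · intro h2
          rw [xa, xb] at h2
          have h3 : c a = c b := by
            have : (-1 * -1 : ZMod p) = 1 := by ring
            rw [this, one_mul] at h2
            exact sub_eq_zero.1 h2
          apply hfix (c a / 2)
          rintro x (rfl | rfl | rfl)
          · rw [xa]; field_simp; ring
          · rw [ct, xt]; ring
          · rw [xb, h3]; field_simp; ring
        · rw [xa, xt, mul_one]
          exact fun h2 => hneg 1 rfl h2.symm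
  · -- third type
    have hfail := h.fail p hp hpC
    have hχe : ∀ g, χ g = e g := by
      intro g
      obtain ⟨x, hx⟩ := exists_prime_orderOf_dvd_card' (G := C₁) p hpd
      have hxo : orderOf (x : G) = p := by rw [Subgroup.orderOf_coe]; exact hx
      have hxp : (x : G) ^ p = 1 := by rw [← hxo]; exact pow_orderOf_eq_one _
      have h2 := h.gn.act x (h.leN x.2) g
      rw [hconj2 x x.2 g] at h2
      have h3 : (x : G) ^ (chi (QuotientGroup.mk' C₁ g)).val * ((x : G) ^ ((eps g : ℤˣ) : ℤ))⁻¹ =
          (x : G) ^ ((((chi (QuotientGroup.mk' C₁ g)).val : ℕ) : ℤ) - ((eps g : ℤˣ) : ℤ)) := by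
        rw [zpow_sub, zpow_natCast]
      rw [h3] at h2
      have h4 : (x : G) ^ ((((chi (QuotientGroup.mk' C₁ g)).val : ℕ) : ℤ) - ((eps g : ℤˣ) : ℤ)) = 1 := by
        rw [← orderOf_eq_one_iff, ← Nat.dvd_one]
        have h5 : Nat.gcd p (Nat.card C) = 1 := (Nat.Prime.coprime_iff_not_dvd hpp).2 hpC
        rw [← h5]
        refine Nat.dvd_gcd ?_ ?_
        · rw [← hxo, orderOf_dvd_iff_pow_eq_one, ← zpow_natCast, ← zpow_mul, mul_comm, zpow_mul,
            zpow_natCast, pow_orderOf_eq_one, one_zpow]
        · have h6 := orderOf_dvd_natCard (⟨_, h2⟩ : C)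
          rwa [Subgroup.orderOf_mk] at h6
      have h5 : (p : ℤ) ∣ (((chi (QuotientGroup.mk' C₁ g)).val : ℕ) : ℤ) - ((eps g : ℤˣ) : ℤ) := by
        rw [← hxo]
        exact orderOf_dvd_iff_zpow_eq_one.2 h4
      rw [← ZMod.intCast_zmod_eq_zero_iff_dvd, Int.cast_sub, Int.cast_natCast, sub_eq_zero] at h5
      show f (chi (QuotientGroup.mk' C₁ g)) = _
      rw [hf, red_eq' (Nat.dvd_of_mem_primeFactors hp)]
      exact h5
    have xa : χ a = -1 := by rw [hχe, hAe a ma]
    have xt : χ t = -1 := by rw [hχe, hAe t mt]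
    have xb : χ b = -1 := by rw [hχe, hAe b mb]
    right
    right
    refine ⟨xa, xt, xb, fun hcon => ?_⟩
    have cpow : ∀ g, χ g = 1 → ∀ r : ℕ, c (g ^ r) = r * c g ∧ χ (g ^ r) = 1 := by
      intro g hg r
      induction r with
      | zero => rw [pow_zero, c1, χ1]; simp
      | succ r ih =>
        rw [pow_succ, cmul, χmul, ih.1, ih.2, hg, Nat.cast_succ]
        exact ⟨by ring, by ring⟩
    have xat : χ (a * t) = 1 := by rw [χmul, xa, xt]; ring
    have xtb : χ (t * b) = 1 := by rw [χmul, xt, xb]; ring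
    have cat : c (a * t) = c a - c t := by rw [cmul, xa]; ring
    have ctb : c (t * b) = c t - c b := by rw [cmul, xt]; ring
    have crel : c (relN a t b m n) = m * (c a - c t) - n * (c t - c b) := by
      unfold relN
      have h2 := cpow (a * t) xat m
      have h3 := cpow (t * b) xtb n
      have h4 := cinv ((t * b) ^ n)
      rw [h3.2, one_mul] at h4
      rw [cmul, h2.2, one_mul, h2.1, cat, eq_neg_of_add_eq_zero_right h4, h3.1, ctb]
      ring
    have crel0 : c (relN a t b m n) = 0 := by
      rw [crel]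
      have hmn' : (m : ZMod p) * i = n * j := by exact_mod_cast congrArg (Nat.cast (R := ZMod p)) hmn
      obtain ⟨u, v, huv⟩ := Nat.isCoprime_iff_coprime.2 hij
      have huv' : (u : ZMod p) * i + v * j = 1 := by
        have := congrArg (Int.cast (R := ZMod p)) huv
        push_cast at this
        exact this
      have hi : (i : ZMod p) * (m * (c a - c t) - n * (c t - c b)) = 0 := by
        linear_combination (c a - c t) * hmn' + (n : ZMod p) * hcon
      have hj : (j : ZMod p) * (m * (c a - c t) - n * (c t - c b)) = 0 := by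
        linear_combination (c t - c b) * hmn' + (m : ZMod p) * hcon
      linear_combination (-(m * (c a - c t) - n * (c t - c b))) * huv' + u * hi + v * hj
    -- so `p` does not divide the order of the relation
    have hρ : relN a t b m n = z ^ (ν (relN a t b m n)).val := by
      have h2 := hν (relN a t b m n)
      rwa [hmz _ h.rel, map_one, mul_one] at h2
    have hdv : p ∣ (ν (relN a t b m n)).val := by
      have h2 : f (ν (relN a t b m n)) = 0 := crel0
      rw [hf, red_eq' (Nat.dvd_of_mem_primeFactors hp)] at h2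
      exact (ZMod.natCast_eq_zero_iff _ _).1 h2
    obtain ⟨r, hr⟩ := hdv
    obtain ⟨M, hM⟩ := hpd
    have h2 : (relN a t b m n) ^ M = 1 := by
      rw [hρ, ← pow_mul, hr]
      have : p * r * M = p * M * r := by ring
      rw [this, ← hM, ← ho, pow_mul, pow_orderOf_eq_one, one_pow]
    have h3 : p ∣ M := hfail.trans (orderOf_dvd_of_pow_eq_one h2)
    have h4 : p * p ∣ Nat.card N := by
      obtain ⟨r', hr'⟩ := h3
      exact (Dvd.intro r' (by rw [hM, hr']; ring)).trans hcardN
    exact hpp.one_lt.ne' (Nat.isUnit_iff.1 (h.gn.Nsq p h4))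

end Pool.Agent.Lib.MP_688fd0_co.SQ5.H70
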