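import Pool.Agent.Lib.MP_688fd0_co.SQ5.N.Iface
import Pool.Agent.Lib.MP_688fd0_co.SQ5.H49.TwoLines

/-!
NEAR-3, row SMALLN: at most two lines.
-/

set_option autoImplicit false

namespace Pool.Agent.Lib.MP_688fd0_co.SQ5.H70

open Pool.Agent.Lib.MP_688fd0_co.OSF Pool.Agent.Lib.MP_688fd0_co.SQ5.N

/-- SMALLN. -/
theorem smallN : SmallNS := by
  refine ⟨0, fun G _ _ N C eps k P hG a t b hI hidx _ => ?_⟩
  have : N.Normal := hG.Nn
  have hco : (Nat.card N).Coprime N.index := by rw [hG.idx]; exact hG.cop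
  have hNe : N ≤ eps.ker := fun n hn => hG.eN n hn
  have hinv : ∀ x ∈ AN a t b, x * x = 1 := by
    rintro x (rfl | rfl | rfl)
    · exact hI.ia
    · exact hI.it
    · exact hI.ib
  have hneg : ∀ x ∈ AN a t b, eps x = -1 := by
    rintro x (rfl | rfl | rfl)
    · exact hI.ea
    · exact hI.et
    · exact hI.eb
  have hw : eps (a * b) = 1 := by
    rw [map_mul, hI.ea, hI.eb]
    decide
  refine H49.twoLines (AN a t b) eps N hG.Nc hco hNe ⟨a, Or.inl rfl⟩ hinv hneg hI.gen (a * b) hw hidx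
    (a := a) (Or.inl rfl) ?_
  have ha : a⁻¹ = a := inv_eq_of_mul_eq_one_right hI.ia
  have hb : b⁻¹ = b := inv_eq_of_mul_eq_one_right hI.ib
  rw [mul_inv_rev, hb, ha, ← mul_assoc, hI.ia, one_mul]

end Pool.Agent.Lib.MP_688fd0_co.SQ5.H70
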